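import Pool.Agent.Y141.QT12c
import Pool.Agent.Y496.QT3f
import Pool.Agent.Y180.QT12b1

set_option autoImplicit false

/-! Project QT, task Z2: the second moment of the tail at complex points. -/

namespace Pool.Agent.Y203.QTZ2

open Complex MeasureTheory Filter Topology
open Pool.Agent.H306R2.RZ (js Gk)
open Pool.Agent.Y19.QT
open Pool.Agent.Y141.QT12c
open scoped ENNReal ComplexConjugate

noncomputable section

/-- Z2 -/
theorem Z2 (Q : ℕ) (lam : ℕ → ℝ) (H : Hecke Q lam) : ∃ (C : ℝ) (A : ℕ), 0 < C ∧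
    ∀ (X Y : ℕ) (Z δ : ℝ) (s : ℂ), 3 ≤ X → 1 ≤ Y → (Y : ℝ) ^ 4 ≤ X → 1 ≤ Z → Z ^ 4 ≤ X →
      0 < δ → δ ≤ 1 / 4 → 1 / 2 + δ ≤ s.re →
      ∑ d ∈ sqf X, ‖∑' n : ℕ, if Y < n then ((cY Q lam Y n * js d n * Real.exp (-(n / Z)) : ℝ) : ℂ) *
          (n : ℂ) ^ (-s) else 0‖ ^ 2 ≤
        C * X * (Y : ℝ) ^ (-δ) * (δ⁻¹) ^ A + C := by
  have hl := (Pool.Agent.Y180.QT12b1.T12b1 Q lam H).2.1
  have hm := (Pool.Agent.Y180.QT12b1.T12b1 Q lam H).2.2.1
  obtain ⟨C, hC, ha⟩ := Pool.Agent.Y496.QT.T12a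
  obtain ⟨A, hA⟩ := pairs_sum 3
  set K : ℝ := (Nat.factorial 25 : ℝ) * ∑' n : ℕ, 1 / (n : ℝ) ^ 2 with hK
  have hS2 : Summable (fun n : ℕ => 1 / (n : ℝ) ^ 2) :=
    Real.summable_one_div_nat_pow.2 (by norm_num)
  have hK0 : 0 ≤ K := mul_nonneg (Nat.cast_nonneg _) (tsum_nonneg fun n => by positivity)
  refine ⟨Real.exp Real.pi * 2 ^ A + Real.exp Real.pi * (C * K ^ 2), A, by positivity,
    fun X Y Z δ s hX hY hYX hZ hZX hδ hδ4 hs => ?_⟩
  have hX3 : (3 : ℝ) ≤ X := by exact_mod_cast hX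
  have hY1 : (1 : ℝ) ≤ Y := by exact_mod_cast hY
  let x : ℕ → ℂ := fun n => if Y < n then ((cY Q lam Y n * Real.exp (-(n / Z)) : ℝ) : ℂ) *
          (n : ℂ) ^ (-s) else 0
  have hxn : ∀ n : ℕ, ‖x n‖ ≤ if Y < n then |cY Q lam Y n| * (n : ℝ) ^ (-(1 / 2 + δ)) *
      Real.exp (-(n / Z)) else 0 := by
    intro n
    simp only [x]
    split_ifs with h1
    · have hn0 : 0 < n := by omega
      have hn1 : (1 : ℝ) ≤ n := by exact_mod_cast hn0
      rw [norm_mul, Complex.norm_real, Real.norm_eq_abs, abs_mul, abs_of_pos (Real.exp_pos _),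
        Complex.norm_natCast_cpow_of_pos hn0, Complex.neg_re]
      have h2 : (n : ℝ) ^ (-s.re) ≤ (n : ℝ) ^ (-(1 / 2 + δ)) :=
        Real.rpow_le_rpow_of_exponent_le hn1 (by linarith)
      calc |cY Q lam Y n| * Real.exp (-(n / Z)) * (n : ℝ) ^ (-s.re) ≤
          |cY Q lam Y n| * Real.exp (-(n / Z)) * (n : ℝ) ^ (-(1 / 2 + δ)) := by gcongr
        _ = _ := by ring
    · exact norm_zero.le
  have hodd : ∀ n, x n ≠ 0 → Odd n := by
    intro n hn
    simp only [x] at hn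
    split_ifs at hn with h1
    · refine odd_of_cY H (Y := Y) fun h0 => hn ?_
      rw [h0]
      simp
    · exact (hn rfl).elim
  have hsum : ∀ d : ℤ, ∑' n : ℕ, (if Y < n then ((cY Q lam Y n * js d n *
      Real.exp (-(n / Z)) : ℝ) : ℂ) * (n : ℂ) ^ (-s) else 0) =
      ∑' n : ℕ, x n * js d n := by
    intro d
    refine tsum_congr fun n => ?_
    simp only [x]
    split_ifs
    · push_cast
      ring
    · rw [zero_mul]
  -- the bound for the second sum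
  have hb : ∀ n : ℕ, ‖x n‖ * (n : ℝ) ^ 20 ≤
      (Nat.factorial 25 : ℝ) * Z ^ 25 * (1 / (n : ℝ) ^ 2) := by
    intro n
    refine (mul_le_mul_of_nonneg_right (hxn n) (by positivity)).trans ?_
    split_ifs with h1
    · have hn0 : 0 < n := by omega
      have hn : (1 : ℝ) ≤ n := by exact_mod_cast hn0
      have e1 : |cY Q lam Y n| ≤ (n : ℝ) ^ 3 :=
        (abs_cY_le hl hm Y n).trans (pow_le_pow_left₀ (dd_nonneg _) (dd_le n) 3)
      have e2 : (n : ℝ) ^ (-(1 / 2 + δ)) ≤ 1 :=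
        Real.rpow_le_one_of_one_le_of_nonpos hn (by linarith)
      have e3 : Real.exp (-(n / Z)) ≤ (Nat.factorial 25 : ℝ) * Z ^ 25 / (n : ℝ) ^ 25 := by
        have h2 := Real.pow_div_factorial_le_exp (x := (n : ℝ) / Z) (by positivity) 25
        rw [Real.exp_neg, inv_le_comm₀ (Real.exp_pos _) (by positivity)]
        refine le_trans (le_of_eq ?_) h2
        rw [div_pow]
        field_simp
      calc |cY Q lam Y n| * (n : ℝ) ^ (-(1 / 2 + δ)) * Real.exp (-(n / Z)) * (n : ℝ) ^ 20 ≤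
          (n : ℝ) ^ 3 * 1 * ((Nat.factorial 25 : ℝ) * Z ^ 25 / (n : ℝ) ^ 25) * (n : ℝ) ^ 20 := by
            gcongr
        _ = (Nat.factorial 25 : ℝ) * Z ^ 25 * (1 / (n : ℝ) ^ 2) := by
            field_simp
    · rw [zero_mul]
      positivity
  have hs1 : Summable (fun n : ℕ => ‖x n‖ * (n : ℝ) ^ 20) :=
    Summable.of_nonneg_of_le (fun n => by positivity) hb (hS2.mul_left _)
  have hs2 : ∑' n : ℕ, ‖x n‖ * (n : ℝ) ^ 20 ≤ K * Z ^ 25 := by
    refine (hs1.tsum_le_tsum hb (hS2.mul_left _)).trans (le_of_eq ?_)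
    rw [tsum_mul_left, hK]
    ring
  -- the bound for the first sum
  have hx0 : ‖x 0‖ = 0 := by simp [x]
  have hp := hA (1 + δ) ((Y : ℝ) ^ (-δ)) (fun n => ‖x n‖) (by linarith) (by positivity)
    (fun n => norm_nonneg _) hx0 (by
      intro m n hm0 hn0
      have key : ∀ n : ℕ, Y < n → |cY Q lam Y n| * (n : ℝ) ^ (-(1 / 2 + δ)) *
          Real.exp (-(n / Z)) ≤ (Y : ℝ) ^ (-(δ / 2)) * (dd n ^ 3 * (n : ℝ) ^ (-((1 + δ) / 2))) := by
        intro n hn
        have hn0 : 0 < n := by omega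
        have hn1 : (1 : ℝ) ≤ n := by exact_mod_cast hn0
        have e3 : Real.exp (-(n / Z)) ≤ 1 := by
          rw [Real.exp_le_one_iff]
          have : (0 : ℝ) ≤ n / Z := by positivity
          linarith
        have e4 : (n : ℝ) ^ (-(1 / 2 + δ)) ≤ (Y : ℝ) ^ (-(δ / 2)) * (n : ℝ) ^ (-((1 + δ) / 2)) := by
          have : (n : ℝ) ^ (-(1 / 2 + δ)) = (n : ℝ) ^ (-(δ / 2)) * (n : ℝ) ^ (-((1 + δ) / 2)) := by
            rw [← Real.rpow_add (by linarith)]
            congr 1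
            ring
          rw [this]
          refine mul_le_mul_of_nonneg_right ?_ (by positivity)
          refine Real.rpow_le_rpow_of_nonpos (by linarith) ?_ (by linarith)
          exact_mod_cast hn.le
        have e5 := abs_cY_le hl hm Y n
        have e6 := dd_nonneg n
        calc |cY Q lam Y n| * (n : ℝ) ^ (-(1 / 2 + δ)) * Real.exp (-(n / Z)) ≤
            dd n ^ 3 * ((Y : ℝ) ^ (-(δ / 2)) * (n : ℝ) ^ (-((1 + δ) / 2))) * 1 := by gcongr
          _ = _ := by ring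
      have hd1 := dd_nonneg m
      have hd2 := dd_nonneg n
      have key2 : ∀ n : ℕ, ‖x n‖ ≤
          (Y : ℝ) ^ (-(δ / 2)) * (dd n ^ 3 * (n : ℝ) ^ (-((1 + δ) / 2))) := by
        intro n
        have hd3 := dd_nonneg n
        refine (hxn n).trans ?_
        split_ifs with h1
        · exact key n h1
        · positivity
      refine (mul_le_mul (key2 m) (key2 n) (norm_nonneg _) (by positivity)).trans (le_of_eq ?_)
      rw [Real.mul_rpow (Nat.cast_nonneg _) (Nat.cast_nonneg _)]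
      have : (Y : ℝ) ^ (-δ) = (Y : ℝ) ^ (-(δ / 2)) * (Y : ℝ) ^ (-(δ / 2)) := by
        rw [← Real.rpow_add (by linarith)]
        congr 1
        ring
      rw [this]
      ring)
  have hmain := ha X x (by linarith) hodd hs1
  set P := ∑' m : ℕ × ℕ, (if IsSquare (m.1 * m.2) then ‖x m.1‖ * ‖x m.2‖ else 0) with hP
  set R := ∑' n : ℕ, ‖x n‖ * (n : ℝ) ^ 20 with hR
  have hP0 : 0 ≤ P := tsum_nonneg fun m => by
    split_ifs
    · positivity
    · exact le_rfl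
  have hR0 : 0 ≤ R := tsum_nonneg fun n => by positivity
  have h5 := sum_sqf (fun d => ∑' n : ℕ, x n * js d n) (X * P + C / X ^ 19 * R ^ 2) X
    (by omega) (by positivity) hmain
  simp only [hsum]
  refine h5.trans ?_
  have h6 : C / (X : ℝ) ^ 19 * R ^ 2 ≤ C * K ^ 2 := by
    have h7 : R ^ 2 ≤ K ^ 2 * (X : ℝ) ^ 19 := by
      calc R ^ 2 ≤ (K * Z ^ 25) ^ 2 := pow_le_pow_left₀ hR0 hs2 2
        _ = K ^ 2 * Z ^ 50 := by ring
        _ ≤ K ^ 2 * (Z ^ 4) ^ 19 := by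
          rw [← pow_mul]
          exact mul_le_mul_of_nonneg_left (pow_le_pow_right₀ hZ (by norm_num)) (by positivity)
        _ ≤ K ^ 2 * (X : ℝ) ^ 19 := by gcongr
    calc C / (X : ℝ) ^ 19 * R ^ 2 ≤ C / (X : ℝ) ^ 19 * (K ^ 2 * (X : ℝ) ^ 19) := by gcongr
      _ = C * K ^ 2 := by field_simp
  have h8 : P ≤ (Y : ℝ) ^ (-δ) * (2 ^ A * (δ⁻¹) ^ A) := by
    refine hp.trans ?_
    rw [← mul_pow, add_sub_cancel_left, one_div]
    have : 1 ≤ δ⁻¹ := by
      rw [one_le_inv₀ hδ]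
      linarith
    exact mul_le_mul_of_nonneg_left (pow_le_pow_left₀ (by linarith) (by linarith) A)
      (by positivity)
  have hW : 0 ≤ (X : ℝ) * (Y : ℝ) ^ (-δ) * (δ⁻¹) ^ A := by positivity
  calc Real.exp Real.pi * (X * P + C / X ^ 19 * R ^ 2) ≤
      Real.exp Real.pi * (X * ((Y : ℝ) ^ (-δ) * (2 ^ A * (δ⁻¹) ^ A)) + C * K ^ 2) := by gcongr
    _ = Real.exp Real.pi * 2 ^ A * (X * (Y : ℝ) ^ (-δ) * (δ⁻¹) ^ A) +
      Real.exp Real.pi * (C * K ^ 2) := by ring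
    _ ≤ (Real.exp Real.pi * 2 ^ A + Real.exp Real.pi * (C * K ^ 2)) *
      (X * (Y : ℝ) ^ (-δ) * (δ⁻¹) ^ A) +
      (Real.exp Real.pi * 2 ^ A + Real.exp Real.pi * (C * K ^ 2)) := by
        have i1 : 0 ≤ Real.exp Real.pi * 2 ^ A := by positivity
        have i2 : 0 ≤ Real.exp Real.pi * (C * K ^ 2) := by positivity
        nlinarith [mul_nonneg i2 hW]
    _ = _ := by ring

end

end Pool.Agent.Y203.QTZ2
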