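import Mathlib
import Pool.Agent.Helper655.DUA4

set_option autoImplicit false

/-! Project QT, task Z6a: the mean value inequality over a disc. -/

namespace Pool.Agent.Y203.QTZ6a

open Complex MeasureTheory

/-- Z6a: mean value inequality -/
theorem Z6a (f : ℂ → ℂ) (ρ : ℂ) (r : ℝ) (hr : 0 < r)
    (hf : DifferentiableOn ℂ f (Metric.ball ρ (2 * r))) :
    Real.pi * r ^ 2 * ‖f ρ‖ ≤ ∫ s in Metric.ball ρ r, ‖f s‖ := by
  classical
  set g : ℂ → ℂ := (Metric.ball ρ (2 * r)).piecewise f (fun _ => 0) with hg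
  have hsub : Metric.ball ρ r ⊆ Metric.ball ρ (2 * r) := Metric.ball_subset_ball (by linarith)
  have hgf : ∀ z ∈ Metric.ball ρ r, g z = f z := fun z hz => by
    rw [hg, Set.piecewise_eq_of_mem _ _ _ (hsub hz)]
  have hgm : Measurable g :=
    ContinuousOn.measurable_piecewise hf.continuousOn continuousOn_const measurableSet_ball
  have hgd : DifferentiableOn ℂ g (Metric.ball ρ r) := (hf.mono hsub).congr hgf
  have h1 := Pool.Agent.Helper655.DU.A4.cp_mv hgm hr hgd
  rw [hgf ρ (Metric.mem_ball_self hr)] at h1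
  have h2 : ∫⁻ z in Metric.ball ρ r, ‖g z‖ₑ = ∫⁻ z in Metric.ball ρ r, ‖f z‖ₑ :=
    setLIntegral_congr_fun measurableSet_ball fun z hz => by rw [hgf z hz]
  have hint : IntegrableOn f (Metric.ball ρ r) := by
    have hc : ContinuousOn f (Metric.closedBall ρ r) :=
      hf.continuousOn.mono (Metric.closedBall_subset_ball (by linarith))
    exact (hc.integrableOn_compact (isCompact_closedBall ρ r)).mono_set Metric.ball_subset_closedBall
  rw [h2] at h1
  have h3 : (∫ s in Metric.ball ρ r, ‖f s‖) = (∫⁻ z in Metric.ball ρ r, ‖f z‖ₑ).toReal :=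
    integral_norm_eq_lintegral_enorm hint.aestronglyMeasurable
  rw [h3]
  have h4 : (∫⁻ z in Metric.ball ρ r, ‖f z‖ₑ) ≠ ⊤ := hint.2.ne
  have h5 := ENNReal.toReal_mono h4 h1
  rw [ENNReal.toReal_mul, ENNReal.toReal_ofReal (by positivity), toReal_enorm] at h5
  exact h5

end Pool.Agent.Y203.QTZ6a
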